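import Pool.Agent.Y870.RM.Pos
import Pool.Agent.Y870.RM.Neg

set_option autoImplicit false

/-!
# Rainbow matchings in graphs of bounded maximum degree: the threshold is linear

For `k` graphs of maximum degree at most `d` with more than `(k - 1) d` edges each:

* if `d ≥ 4 (k - 1)`, there is always a rainbow matching, for arbitrary graphs;
* if `k ≥ 2 d`, there need not be one, even if all graphs are bipartite with one common
  bipartition.

So for every `k` the assertion of the problem holds for all large `d` and fails for all small `d`,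
and the threshold lies between `k / 2` and `4 (k - 1)`.
-/

namespace Pool.Agent.Results.MP_3ec6a8_co.LinearThreshold

/-- The family `F` has a rainbow matching: one edge `e i` of each `F i`, pairwise disjoint. -/
def HasRainbowMatching {k : ℕ} {V : Type} (F : Fin k → SimpleGraph V) : Prop :=
  ∃ e : Fin k → Sym2 V, (∀ i, e i ∈ (F i).edgeSet) ∧
    ∀ i j, i ≠ j → ∀ v, ¬ (v ∈ e i ∧ v ∈ e j)

/-- Every graph of the family has maximum degree at most `d` and more than `(k - 1) d` edges. -/
def Admissible {k : ℕ} {V : Type} (d : ℕ) (F : Fin k → SimpleGraph V) : Prop :=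
  (∀ i v, ((F i).neighborSet v).ncard ≤ d) ∧ (∀ i, (k - 1) * d < (F i).edgeSet.ncard)

theorem positive {k d : ℕ} (hd : 4 * (k - 1) ≤ d) {V : Type} [Finite V]
    (F : Fin k → SimpleGraph V) (hF : Admissible d F) : HasRainbowMatching F := by
  classical
  have := Fintype.ofFinite V
  obtain ⟨x, y, h1, h2⟩ := Pool.Agent.Y870.RM.exists_rainbow (k := k) (d := d) F
    (fun i v => by
      have := hF.1 i v
      rw [Set.ncard_eq_toFinset_card'] at this
      exact this)
    (fun i => by
      have := hF.2 i
      rw [Set.ncard_eq_toFinset_card'] at this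
      exact this) hd
  refine ⟨fun i => s(x i, y i), fun i => h1 i, ?_⟩
  rintro i j hij v ⟨hv, hv'⟩
  obtain ⟨a1, a2, a3, a4⟩ := h2 i j hij
  rw [Sym2.mem_iff] at hv hv'
  rcases hv with rfl | rfl
  · rcases hv' with h | h
    · exact a1 h
    · exact a2 h
  · rcases hv' with h | h
    · exact a3 h
    · exact a4 h

/-- **The assertion fails for `k ≥ 2 d` and holds for `d ≥ 4 (k - 1)`.** -/
theorem result (k d : ℕ) (hd : 1 ≤ d) :
    (2 * d ≤ k → ∃ (V : Type) (_ : Finite V) (side : V → Bool) (F : Fin k → SimpleGraph V),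
      (∀ i u v, (F i).Adj u v → side u ≠ side v) ∧ Admissible d F ∧ ¬ HasRainbowMatching F) ∧
    (4 * (k - 1) ≤ d → ∀ (V : Type) (_ : Finite V) (F : Fin k → SimpleGraph V),
      Admissible d F → HasRainbowMatching F) := by
  refine ⟨fun hk => ?_, fun h V _ F hF => positive h F hF⟩
  obtain ⟨V, hV, side, F, h1, h2, h3, h4⟩ := Pool.Agent.Y870.RM.exists_counterexample d k hd hk
  exact ⟨V, Finite.of_fintype V, side, F, h1, ⟨h2, h3⟩, h4⟩

end Pool.Agent.Results.MP_3ec6a8_co.LinearThreshold
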